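import Pool.Agent.Lib.MP_acde3d_al.Primes

namespace Pool.Agent.Results.MP_acde3d_al.Isomorphisms

open Pool.Agent.Lib.MP_acde3d_al

/-- A bijection of the vertex sets of two generalized non-coprime graphs of finite groups is a
graph isomorphism exactly when it maps the vertices in `H` onto the vertices in `H'` and keeps,
for every prime dividing the order of `H`, divisibility of element orders by that prime. -/
theorem result (G G' : Type) [Group G] [Finite G] [Group G'] [Finite G']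
    (H : Subgroup G) (H' : Subgroup G') (hH : H ≠ ⊥) (hH' : H' ≠ ⊥)
    (φ : {g : G // g ≠ 1} ≃ {g : G' // g ≠ 1}) :
    (∀ a b, (ncGraph H').Adj (φ a) (φ b) ↔ (ncGraph H).Adj a b) ↔
      (φ '' {a | a.1 ∈ H} = {b | b.1 ∈ H'} ∧
        ∀ (a : {g : G // g ≠ 1}) (p : ℕ), p.Prime → p ∣ Nat.card H →
          (p ∣ orderOf a.1 ↔ p ∣ orderOf (φ a).1)) := by
  constructor
  · intro h
    let ψ : ncGraph H ≃g ncGraph H' := ⟨φ, h _ _⟩
    refine ⟨?_, fun a p hp hd => prime_iff hH hH' ψ hp hd a⟩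
    ext b
    constructor
    · rintro ⟨a, ha, rfl⟩
      exact maps_to hH' ψ a ha
    · intro hb
      exact ⟨φ.symm b, maps_to hH ψ.symm b hb, φ.apply_symm_apply b⟩
  · rintro ⟨h1, h2⟩ a b
    refine adj_of_primes φ (fun c => ⟨fun hc => ?_, fun hc => ?_⟩) h2 a b
    · have : φ c ∈ φ '' {a | a.1 ∈ H} := ⟨c, hc, rfl⟩
      rwa [h1] at this
    · have : φ c ∈ φ '' {a | a.1 ∈ H} := by rw [h1]; exact hc
      obtain ⟨d, hd, e⟩ := this
      rwa [← φ.injective e]

/-- The question as posed follows. -/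
theorem posed (G G' : Type) [Group G] [Finite G] [Group G'] [Finite G']
    (H : Subgroup G) (H' : Subgroup G') (hH : H ≠ ⊥) (hH' : H' ≠ ⊥)
    (φ : ncGraph H ≃g ncGraph H') : φ '' {a | a.1 ∈ H} = {b | b.1 ∈ H'} :=
  ((result G G' H H' hH hH' φ.toEquiv).1 fun _ _ => φ.map_adj_iff).1

end Pool.Agent.Results.MP_acde3d_al.Isomorphisms
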